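import Pool.Agent.Helper70.GUM.St3

/-!
# Project GUM, module G3C: the isotropic points of a 3-dimensional hermitian space
-/

set_option autoImplicit false

namespace Pool.Agent.Helper82.GUT

open Module _root_.GUM Pool.Agent.Helper70.GUM Pool.Agent.Helper70.GUT
open UN (QE)
open OG (act Bd Stb steps Ch Wt)

universe u v w z y o

section

variable {k : Type u} {F : Type v} [Field k] [Field F] [Algebra k F] {X : Type y} [AddCommGroup X]
  [Module F X] {σ : F ≃ₐ[k] F} {hσ : QE σ} {B : HForm σ X} {Y : Submodule F X} {p p' : X}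

/-- The isotropic vector attached to an element of the Heisenberg group. -/
def vec (p p' e : X) (g : Hei hσ) : X := p' + g.a • e + g.c • p

/-- The involution exchanging `p` and `p'`. -/
def nL (B : HForm σ X) (p p' : X) : X →ₗ[F] X :=
  LinearMap.id + (B.l p - B.l p').smulRight (p - p')

theorem nL_apply (B : HForm σ X) (p p' x : X) :
    nL B p p' x = x + (B.f x p - B.f x p') • (p - p') := by
  simp [nL, HForm.l_apply]

theorem nL_nL (h : HP B Y p p') (x : X) : nL B p p' (nL B p p' x) = x := by
  have h1 := h.q1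
  have h2 := h.q2
  have h3 := h.b
  have h4 := B.swap1 h.b
  have e1 : B.f (nL B p p' x) p = B.f x p' := by
    rw [nL_apply]
    simp only [B.add, B.smul, B.sub_l, h1, h4]
    ring
  have e2 : B.f (nL B p p' x) p' = B.f x p := by
    rw [nL_apply]
    simp only [B.add, B.smul, B.sub_l, h2, h3]
    ring
  rw [nL_apply, e1, e2, nL_apply]
  module

/-- The involution as an automorphism. -/
def nE (h : HP B Y p p') : X ≃ₗ[F] X :=
  LinearEquiv.ofLinearMap (nL B p p') (nL B p p')
    (by
      ext x
      simp only [LinearMap.comp_apply, LinearMap.id_apply]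
      exact nL_nL h x)
    (by
      ext x
      simp only [LinearMap.comp_apply, LinearMap.id_apply]
      exact nL_nL h x)

theorem nE_apply (h : HP B Y p p') (x : X) :
    nE h x = x + (B.f x p - B.f x p') • (p - p') := nL_apply B p p' x

theorem nE_p (h : HP B Y p p') : nE h p = p' := by
  rw [nE_apply, h.q1, h.b]
  module

theorem nE_p' (h : HP B Y p p') : nE h p' = p := by
  rw [nE_apply, h.q2, B.swap1 h.b]
  module

theorem nE_mem (h : HP B Y p p') : nE h ∈ Gr B Y := by
  refine ⟨?_, ?_, ?_⟩
  · intro x y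
    rw [nE_apply, nE_apply]
    simp only [B.add, B.add_r, B.smul, B.smul_r, B.sub_l, B.sub_r, map_sub, h.q1, h.q2, h.b,
      B.swap1 h.b]
    rw [← B.sym y p, ← B.sym y p']
    ring
  · intro x
    rw [nE_apply, add_sub_cancel_left]
    exact Y.smul_mem _ (Y.sub_mem h.m1 h.m2)
  · intro x hx
    rw [nE_apply, hx p h.m1, hx p' h.m2, sub_self, zero_smul, add_zero]

end

section

variable {k : Type u} {F : Type v} [Field k] [Field F] [Algebra k F] {X : Type y} [AddCommGroup X]
  [Module F X] {σ : F ≃ₐ[k] F} {hσ : QE σ} {B : HForm σ X} {Y : Submodule F X} {p p' e : X}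

theorem vec_p (h : HP B Y p p') (he : e ∈ pp B Y p p') (g : Hei hσ) :
    B.f (vec p p' e g) p = 1 := by
  obtain ⟨-, h1, h2⟩ := mem_pp.1 he
  rw [vec]
  simp only [B.add, B.smul, h1, h.q1, B.swap1 h.b]
  ring

theorem vec_p' (h : HP B Y p p') (he : e ∈ pp B Y p p') (g : Hei hσ) :
    B.f (vec p p' e g) p' = g.c := by
  obtain ⟨-, h1, h2⟩ := mem_pp.1 he
  rw [vec]
  simp only [B.add, B.smul, h2, h.q2, h.b]
  ring

theorem vec_e (he : e ∈ pp B Y p p') (hee : B.f e e = -1) (g : Hei hσ) :
    B.f (vec p p' e g) e = -g.a := by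
  obtain ⟨-, h1, h2⟩ := mem_pp.1 he
  rw [vec]
  simp only [B.add, B.smul, B.swap0 h1, B.swap0 h2, hee]
  ring

theorem vec_vec (h : HP B Y p p') (he : e ∈ pp B Y p p') (hee : B.f e e = -1) (g : Hei hσ) :
    B.f (vec p p' e g) (vec p p' e g) = 0 := by
  have h1 := vec_p h he g
  have h2 := vec_p' h he g
  have h3 := vec_e he hee g
  conv_lhs => rw [show B.f (vec p p' e g) (vec p p' e g) =
    B.f (vec p p' e g) (p' + g.a • e + g.c • p) from rfl]
  rw [B.add_r, B.add_r, B.smul_r, B.smul_r, h1, h2, h3]
  linear_combination g.h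

theorem vec_mem (h : HP B Y p p') (he : e ∈ pp B Y p p') (g : Hei hσ) : vec p p' e g ∈ Y :=
  Y.add_mem (Y.add_mem h.m2 (Y.smul_mem _ (mem_pp.1 he).1)) (Y.smul_mem _ h.m1)

theorem vec_ne (h : HP B Y p p') (he : e ∈ pp B Y p p') (g : Hei hσ) : vec p p' e g ≠ 0 := by
  intro h0
  have := vec_p h he g
  rw [h0, B.zero_l] at this
  exact zero_ne_one this

theorem p_ne (h : HP B Y p p') : p ≠ 0 := by
  intro h0
  have := h.b
  rw [h0, B.zero_l] at this
  exact zero_ne_one this

/-- The coordinates. -/
def phi (B : HForm σ X) (Y : Submodule F X) (p p' e : X) : Y →ₗ[F] F × F × F :=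
  ((B.l p).prod ((B.l p').prod (B.l e))).comp Y.subtype

theorem phi_apply (x : Y) : phi B Y p p' e x = (B.f x.1 p, B.f x.1 p', B.f x.1 e) := rfl

theorem decomp [FiniteDimensional F X] (h : HP B Y p p') (h3 : finrank F Y = 3)
    (he : e ∈ pp B Y p p') (hee : B.f e e = -1) (x : X) (hx : x ∈ Y) :
    x = B.f x p • p' + B.f x p' • p - B.f x e • e := by
  obtain ⟨h0, h1, h2⟩ := mem_pp.1 he
  have h1' := B.swap0 h1
  have h2' := B.swap0 h2
  have hs : Function.Surjective (phi B Y p p' e) := by
    rintro ⟨a, b, c⟩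
    refine ⟨⟨a • p' + b • p - c • e, Y.sub_mem (Y.add_mem (Y.smul_mem _ h.m2)
      (Y.smul_mem _ h.m1)) (Y.smul_mem _ h0)⟩, ?_⟩
    rw [phi_apply]
    simp only [B.add, B.sub_l, B.smul, h.q1, h.q2, h.b, B.swap1 h.b, h1, h2, h1', h2', hee]
    refine Prod.ext ?_ (Prod.ext ?_ ?_) <;> simp only <;> ring
  have hf : finrank F Y = finrank F (F × F × F) := by
    rw [h3]
    simp
  have hi : Function.Injective (phi B Y p p' e) :=
    (LinearMap.injective_iff_surjective_of_finrank_eq_finrank hf).2 hs
  have hz : (⟨x, hx⟩ : Y) = ⟨B.f x p • p' + B.f x p' • p - B.f x e • e,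
      Y.sub_mem (Y.add_mem (Y.smul_mem _ h.m2) (Y.smul_mem _ h.m1)) (Y.smul_mem _ h0)⟩ := by
    apply hi
    rw [phi_apply, phi_apply]
    simp only [B.add, B.sub_l, B.smul, h.q1, h.q2, h.b, B.swap1 h.b, h1, h2, h1', h2', hee]
    refine Prod.ext ?_ (Prod.ext ?_ ?_) <;> simp only <;> ring
  exact congrArg Subtype.val hz

theorem span_map (g : X ≃ₗ[F] X) (x : X) :
    g • (Submodule.span F {x}) = Submodule.span F {g x} := by
  rw [OG.smul_def, Submodule.map_span, Set.image_singleton]
  rfl

theorem span_smul' {c : F} (hc : c ≠ 0) (x : X) :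
    Submodule.span F {c • x} = Submodule.span F {x} :=
  Submodule.span_singleton_smul_eq (IsUnit.mk0 c hc) x

theorem iso_span {x : X} (hx : B.f x x = 0) :
    ∀ a ∈ Submodule.span F {x}, ∀ b ∈ Submodule.span F {x}, B.f a b = 0 := by
  intro a ha b hb
  obtain ⟨s, rfl⟩ := Submodule.mem_span_singleton.1 ha
  obtain ⟨t, rfl⟩ := Submodule.mem_span_singleton.1 hb
  rw [B.smul, B.smul_r, hx]
  ring

theorem sk_span {x : X} (hx : B.f x x = 0) (h0 : x ≠ 0) (hY : x ∈ Y) :
    Submodule.span F {x} ∈ Sk B Y 1 :=
  ⟨(Submodule.span_singleton_le_iff_mem _ _).2 hY, finrank_span_singleton h0, iso_span hx⟩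

end

theorem hG3C : StG3C.{u, v, y} := by
  intro k F _ _ _ X _ _ _ σ hσ B hG hT Y p p' h h3 e he hee
  classical
  obtain ⟨he0, he1, he2⟩ := mem_pp.1 he
  have he1' := B.swap0 he1
  have he2' := B.swap0 he2
  have hb := B.swap1 h.b
  have hv : ∀ g : Hei hσ, B.f (g.a • e) p = 0 := fun g => by rw [B.smul, he1, mul_zero]
  choose tor ht using fun (t : F) (h0 : t ≠ 0) => hT Y p p' h t h0
  refine ⟨{
    w := fun g => Submodule.span F {vec p p' e g}
    w0 := Submodule.span F {p}
    e := fun g => hE B p (g.a • e) g.c h.q1 (hv g)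
    n := nE h
    tor := fun t => if h0 : t = 0 then 1 else tor t h0
    inj := ?_
    ne := ?_
    cov := ?_
    e_mem := ?_
    e_w := ?_
    e_w0 := ?_
    n_mem := nE_mem h
    n_w0 := ?_
    n_w1 := ?_
    n_w := ?_
    t_mem := ?_
    t_w0 := ?_
    t_w := ?_ }⟩
  · -- injective
    intro g g' hgg
    have h1 : vec p p' e g' ∈ Submodule.span F {vec p p' e g} := by
      have : vec p p' e g' ∈ Submodule.span F {vec p p' e g'} :=
        Submodule.mem_span_singleton_self _
      rw [← show Submodule.span F {vec p p' e g} = Submodule.span F {vec p p' e g'} from hgg]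
        at this
      exact this
    obtain ⟨s, hs⟩ := Submodule.mem_span_singleton.1 h1
    have hs1 : s = 1 := by
      have a1 := congrArg (fun x => B.f x p) hs
      simp only [B.smul, vec_p h he] at a1
      rw [mul_one] at a1
      exact a1
    rw [hs1, one_smul] at hs
    have a2 := congrArg (fun x => B.f x e) hs
    simp only [vec_e he hee] at a2
    have a3 := congrArg (fun x => B.f x p') hs
    simp only [vec_p' h he] at a3
    exact Hei.ext (neg_injective a2) a3
  · -- different from the point at infinity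
    intro g hg
    have h1 : vec p p' e g ∈ Submodule.span F {p} := by
      have : vec p p' e g ∈ Submodule.span F {vec p p' e g} :=
        Submodule.mem_span_singleton_self _
      rw [show Submodule.span F {vec p p' e g} = Submodule.span F {p} from hg] at this
      exact this
    obtain ⟨s, hs⟩ := Submodule.mem_span_singleton.1 h1
    have a1 := congrArg (fun x => B.f x p) hs
    simp only [B.smul, vec_p h he, h.q1, mul_zero] at a1
    exact zero_ne_one a1
  · -- covering
    intro s
    constructor
    · rintro ⟨hsY, hs1, hsi⟩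
      obtain ⟨⟨x, hxs⟩, hx0, hx⟩ := finrank_eq_one_iff'.1 hs1
      have hx0' : x ≠ 0 := fun hh => hx0 (Subtype.ext hh)
      have hspan : s = Submodule.span F {x} := by
        apply le_antisymm
        · intro z hz
          obtain ⟨c, hc⟩ := hx ⟨z, hz⟩
          rw [Submodule.mem_span_singleton]
          exact ⟨c, congrArg Subtype.val hc⟩
        · rw [Submodule.span_singleton_le_iff_mem]
          exact hxs
      have hd := decomp h h3 he hee x (hsY hxs)
      have hq : B.f x x = 0 := hsi x hxs x hxs
      set α := B.f x p with hα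
      set γ := B.f x p' with hγ
      set β := B.f x e with hβ
      have hrel : α * σ γ + γ * σ α = β * σ β := by
        have e1 : B.f x x = B.f x (α • p' + γ • p - β • e) := by rw [← hd]
        rw [hq, B.sub_r, B.add_r, B.smul_r, B.smul_r, B.smul_r, ← hα, ← hγ, ← hβ] at e1
        linear_combination -e1
      by_cases hα0 : α = 0
      · left
        rw [hα0, map_zero, zero_mul, mul_zero, add_zero] at hrel
        have hβ0 : β = 0 := by
          rcases mul_eq_zero.1 hrel.symm with hh | hh
          · exact hh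
          · exact (map_eq_zero σ).1 hh
        rw [hα0, hβ0, zero_smul, zero_smul, zero_add, sub_zero] at hd
        have hγ0 : γ ≠ 0 := by
          intro hh
          rw [hh, zero_smul] at hd
          exact hx0' hd
        rw [hspan, hd]
        exact span_smul' hγ0 p
      · right
        have hσα : σ α ≠ 0 := fun hh => hα0 ((map_eq_zero σ).1 hh)
        have hc : γ / α + σ (γ / α) = (-β / α) * σ (-β / α) := by
          rw [map_div₀, map_div₀, map_neg]
          field_simp
          linear_combination hrel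
        refine ⟨⟨-β / α, γ / α, hc⟩, ?_⟩
        have e2 : x = α • vec (hσ := hσ) p p' e ⟨-β / α, γ / α, hc⟩ := by
          rw [vec, smul_add, smul_add, smul_smul, smul_smul, mul_div_cancel₀ _ hα0,
            mul_div_cancel₀ _ hα0]
          conv_lhs => rw [hd]
          module
        rw [hspan, e2]
        exact span_smul' hα0 _
    · rintro (rfl | ⟨g, rfl⟩)
      · exact sk_span h.q1 (p_ne h) h.m1
      · exact sk_span (vec_vec h he hee g) (vec_ne h he g) (vec_mem h he g)
  · -- the translations are in the group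
    intro g
    apply hG.heis Y p (g.a • e) g.c h.q1 (hv g) h.m1 (Y.smul_mem _ he0)
    rw [Adm, B.smul, B.smul_r, hee]
    linear_combination g.h
  · -- action of the translations
    intro g g'
    rw [span_map]
    congr 2
    rw [hE_apply, vec, vec]
    simp only [B.add, B.smul, B.smul_r, he1, he1', he2', h.q1, hb, hee, Hei.mul_a, Hei.mul_c]
    module
  · intro g
    rw [span_map]
    congr 2
    rw [hE_apply]
    simp only [B.smul_r, he1', h.q1]
    module
  · -- inversion
    rw [span_map, nE_p, vec]
    congr 2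
    rw [Hei.one_a, Hei.one_c]
    module
  · rw [span_map, vec, Hei.one_a, Hei.one_c, zero_smul, zero_smul, add_zero, add_zero, nE_p']
  · intro g hg
    have hc := g.c_ne hg
    rw [span_map]
    have e1 : nE h (vec p p' e g) = g.c • vec p p' e (ivn g) := by
      rw [vec, vec, ivn_a g hc, ivn_c g hc, map_add, map_add, map_smul, map_smul, nE_p, nE_p']
      have e2 : nE h e = e := by
        rw [nE_apply, he1, he2, sub_self, zero_smul, add_zero]
      rw [e2, smul_add, smul_add, smul_smul, smul_smul, mul_div_cancel₀ _ hc,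
        mul_div_cancel₀ _ hc, one_smul]
      abel
    rw [e1]
    exact span_smul' hc _
  · -- torus
    intro t h0
    rw [dif_neg h0]
    exact (ht t h0).1
  · intro t h0
    rw [dif_neg h0, span_map, (ht t h0).2.1]
    exact span_smul' h0 p
  · intro t h0 g
    rw [dif_neg h0, span_map]
    obtain ⟨-, t1, t2, t3⟩ := ht t h0
    have hσt : σ t ≠ 0 := fun hh => h0 ((map_eq_zero σ).1 hh)
    have e1 : tor t h0 (vec p p' e g) = (σ t)⁻¹ • vec p p' e (scl t g) := by
      rw [vec, vec, scl_a, scl_c, map_add, map_add, map_smul, map_smul, t1, t2, t3 e he1 he2,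
        smul_add, smul_add, smul_smul, smul_smul, smul_smul]
      have a1 : (σ t)⁻¹ * (σ t * g.a) = g.a := by field_simp
      have a2 : (σ t)⁻¹ * (t * σ t * g.c) = g.c * t := by field_simp
      rw [a1, a2]
    rw [e1]
    exact span_smul' (inv_ne_zero hσt) _

end Pool.Agent.Helper82.GUT
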