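import Pool.Agent.Helper70.GUM.St1
import Pool.Agent.Helper60.OG.Base

/-!
# Project GUM, module ONE
-/

set_option autoImplicit false

namespace Pool.Agent.Helper82.GUM

open Pool.Agent.Helper70.GUM Module OG UN

universe u v w z

theorem hONE : StONE.{w, z} := by
  intro R K _ _ _ _ _ _ E hE hred n
  apply Finset.card_le_one.2
  have main : ∀ i ∈ steps E n, ∀ j ∈ steps E n, ¬ (i < j) := by
    intro i hi j hj hlt
    rw [mem_steps] at hi hj
    have hi1 : ¬ (E (i + 1) ≤ E i) := fun hle => hi.2 (le_antisymm (hE (Nat.le_succ i)) hle)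
    have hj1 : ¬ (E (j + 1) ≤ E j) := fun hle => hj.2 (le_antisymm (hE (Nat.le_succ j)) hle)
    obtain ⟨b, hb, hbi⟩ := SetLike.not_le_iff_exists.1 hi1
    obtain ⟨c, hc, hcj⟩ := SetLike.not_le_iff_exists.1 hj1
    have hle : E (i + 1) ≤ E j := hE (by omega)
    have hc0 : c ≠ 0 := by
      intro h0
      rw [h0] at hcj
      exact hcj (zero_mem _)
    have hb0 : b ≠ 0 := by
      intro h0
      rw [h0] at hbi
      exact hbi (zero_mem _)
    -- `c` is not a multiple of `b`
    have h1 : ∀ a : R, c ≠ a • b := by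
      intro a ha
      apply hcj
      rw [ha]
      exact (E j).smul_mem a (hle hb)
    rcases ValuationRing.isInteger_or_isInteger R (b / c) with h | h
    · obtain ⟨a, ha⟩ := h
      have hab : b = a • c := by
        rw [Algebra.smul_def, ha, div_mul_cancel₀ _ hc0]
      by_cases hu : IsUnit a
      · obtain ⟨a', rfl⟩ := hu
        apply h1 ((a'⁻¹ : Rˣ) : R)
        rw [hab, smul_smul, Units.inv_mul, one_smul]
      · apply hbi
        rw [hab]
        exact hE (Nat.zero_le i) (hred (j + 1) a ((IsLocalRing.mem_maximalIdeal a).2 hu) c hc)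
    · obtain ⟨a, ha⟩ := h
      apply h1 a
      rw [Algebra.smul_def, ha, inv_div, div_mul_cancel₀ _ hb0]
  intro i hi j hj
  rcases lt_trichotomy i j with h | h | h
  · exact absurd h (main i hi j hj)
  · exact h
  · exact absurd h (main j hj i hi)

end Pool.Agent.Helper82.GUM
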